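import Mathlib
import Pool.Agent.helper59.GF.Spec

set_option autoImplicit false

namespace Pool.Agent.GF

open Filter Topology

theorem AFB_ell (p : ℕ) (r : Fin (p + 2)) : ell p (cen p r) ≠ 0 := by
  unfold ell cen
  apply Finset.prod_ne_zero_iff.2
  intro q _ h
  have h1 : (2 * ((r : ℕ) : ℝ)) = 2 * ((q : ℕ) : ℝ) + 1 := by linarith
  have h2 : 2 * (r : ℕ) = 2 * (q : ℕ) + 1 := by exact_mod_cast h1
  omega

theorem AFB_inj (p : ℕ) : Function.Injective (cen p) := by
  intro a b h
  unfold cen at h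
  apply Fin.ext
  exact_mod_cast h

theorem AFB_mu (p : ℕ) (r : Fin (p + 2)) : mu p (cen p) r ≠ 0 := by
  unfold mu
  apply div_ne_zero (AFB_ell p r)
  apply Finset.prod_ne_zero_iff.2
  intro r' hr' h
  rw [Finset.mem_erase] at hr'
  exact hr'.1 (AFB_inj p (sub_eq_zero.1 h)).symm

theorem AFB (hINT : INT_stmt) (hLVL : LVL_stmt) : AFB_stmt := by
  intro p v
  obtain ⟨a0, a, ha⟩ := hINT p (fun r => cen p r.castSucc)
    (fun x y h => Fin.castSucc_injective _ (AFB_inj p h)) (fun r => AFB_ell p r.castSucc) v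
  obtain ⟨hL0, hL1⟩ := hLVL p (cen p) (AFB_inj p)
  have hL2 := hL1 (fun r => AFB_ell p r)
  have hsum : ∑ r, mu p (cen p) r * (a0 + ∑ q, a q * Yl p (cen p r) q) = 0 := by
    have e : ∀ r, mu p (cen p) r * (a0 + ∑ q, a q * Yl p (cen p r) q)
        = a0 * mu p (cen p) r + ∑ q, a q * (mu p (cen p) r * Yl p (cen p r) q) := by
      intro r
      rw [mul_add, Finset.mul_sum]
      congr 1
      · ring
      · apply Finset.sum_congr rfl
        intro q _
        ring
    rw [Finset.sum_congr rfl (fun r _ => e r), Finset.sum_add_distrib, ← Finset.mul_sum, hL0,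
      Finset.sum_comm, mul_zero, zero_add]
    apply Finset.sum_eq_zero
    intro q _
    rw [← Finset.mul_sum, hL2 q, mul_zero]
  rw [Fin.sum_univ_castSucc] at hsum
  have hB : ∀ y : Fin p → ℝ,
      (∑ q, a q • (LinearMap.proj q : (Fin p → ℝ) →ₗ[ℝ] ℝ)) y = ∑ q, a q * y q := by
    intro y
    simp [LinearMap.sum_apply]
  refine ⟨∑ q, a q • (LinearMap.proj q : (Fin p → ℝ) →ₗ[ℝ] ℝ), a0, ?_, ?_⟩
  · intro q
    rw [hB, add_comm]
    exact ha q
  · rw [hB, add_comm]
    have hne := AFB_mu p (Fin.last (p + 1))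
    have e2 : ∑ q, lam p q * v q
        = -(∑ q : Fin (p + 1), mu p (cen p) q.castSucc *
            (a0 + ∑ j, a j * Yl p (cen p q.castSucc) j)) / mu p (cen p) (Fin.last (p + 1)) := by
      rw [← Finset.sum_neg_distrib, Finset.sum_div]
      apply Finset.sum_congr rfl
      intro q _
      rw [ha q]
      unfold lam
      ring
    rw [e2, eq_div_iff hne]
    linarith

end Pool.Agent.GF
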