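import Mathlib
import Pool.Agent.helper59.GF.Spec

set_option autoImplicit false

namespace Pool.Agent.GF

open Filter Topology

/-- the polynomial in the parameter -/
noncomputable def KAP_Q (p : ℕ) (c0 : ℝ) (c : Fin p → ℝ) : Polynomial ℝ :=
  Polynomial.C c0 + ∑ q : Fin p, Polynomial.C (c q) * Polynomial.X ^ ((q : ℕ) + 1)

theorem KAP_Q_eval (p : ℕ) (c0 : ℝ) (c : Fin p → ℝ) (z : ℝ) :
    (KAP_Q p c0 c).eval z = c0 + ∑ q : Fin p, c q * z ^ ((q : ℕ) + 1) := by
  simp [KAP_Q, Polynomial.eval_finsetSum]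

theorem KAP_Q_zero (p : ℕ) (c0 : ℝ) (c : Fin p → ℝ) (h : KAP_Q p c0 c = 0) :
    c0 = 0 ∧ ∀ q, c q = 0 := by
  constructor
  · have h0 : (KAP_Q p c0 c).coeff 0 = 0 := by rw [h]; simp
    simp only [KAP_Q, Polynomial.coeff_add, Polynomial.finsetSum_coeff,
      Polynomial.coeff_C_mul_X_pow, Polynomial.coeff_C_zero] at h0
    rw [Finset.sum_eq_zero] at h0
    · linarith
    · intro q _
      rw [if_neg (by omega)]
  · intro q
    have h0 : (KAP_Q p c0 c).coeff ((q : ℕ) + 1) = 0 := by rw [h]; simp
    simp only [KAP_Q, Polynomial.coeff_add, Polynomial.finsetSum_coeff,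
      Polynomial.coeff_C_mul_X_pow, Polynomial.coeff_C_succ, zero_add] at h0
    rw [Finset.sum_eq_single q] at h0
    · simpa using h0
    · intro b _ hb
      rw [if_neg]
      intro hc
      apply hb
      apply Fin.ext
      omega
    · intro hq
      exact absurd (Finset.mem_univ q) hq

/-- the functional does not vanish -/
theorem KAP_ne (hPFR : PFR_stmt) (p : ℕ) (t : Fin (p + 2) → ℝ) (ht : Function.Injective t)
    (hl : ∀ r, ell p (t r) ≠ 0) (N : Fin (p + 2) → Prop) [DecidablePred N] (r0 r1 : Fin (p + 2))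
    (h0 : N r0) (h1 : ¬ N r1)
    (hc0 : ∑ r, (if N r then mu p t r else 0) = 0)
    (hc : ∀ q : Fin p, ∑ r, (if N r then mu p t r * Yl p (t r) q else 0) = 0) : False := by
  classical
  set S : Finset (Fin (p + 2)) := (Finset.univ.filter N).erase r0 with hS
  have hcard : S.card ≤ p := by
    have hsub : S ⊆ (Finset.univ.erase r0).erase r1 := by
      intro r hr
      rw [hS, Finset.mem_erase, Finset.mem_filter] at hr
      rw [Finset.mem_erase, Finset.mem_erase]
      refine ⟨?_, hr.1, Finset.mem_univ r⟩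
      intro h
      rw [h] at hr
      exact h1 hr.2.2
    have hr10 : r1 ≠ r0 := by
      intro h
      rw [h] at h1
      exact h1 h0
    have h2 := Finset.card_le_card hsub
    rw [Finset.card_erase_of_mem (Finset.mem_erase.2 ⟨hr10, Finset.mem_univ r1⟩),
      Finset.card_erase_of_mem (Finset.mem_univ r0), Finset.card_univ, Fintype.card_fin] at h2
    omega
  set P : Polynomial ℝ := ∏ r ∈ S, (Polynomial.X - Polynomial.C (t r)) with hP
  have hdeg : P.natDegree ≤ p := by
    rw [hP, Polynomial.natDegree_finsetProd_X_sub_C_eq_card]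
    exact hcard
  obtain ⟨a0, a, ha⟩ := hPFR p P hdeg
  have hlin : ∑ r, (if N r then mu p t r * (a0 + ∑ q, a q * Yl p (t r) q) else 0) = 0 := by
    have e : ∀ r, (if N r then mu p t r * (a0 + ∑ q, a q * Yl p (t r) q) else 0)
        = a0 * (if N r then mu p t r else 0)
          + ∑ q, a q * (if N r then mu p t r * Yl p (t r) q else 0) := by
      intro r
      by_cases h : N r
      · simp only [h, if_true]
        rw [mul_add, Finset.mul_sum]
        congr 1
        · ring
        · apply Finset.sum_congr rfl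
          intro q _
          ring
      · simp [h]
    rw [Finset.sum_congr rfl (fun r _ => e r), Finset.sum_add_distrib, ← Finset.mul_sum, hc0,
      Finset.sum_comm]
    rw [mul_zero, zero_add]
    apply Finset.sum_eq_zero
    intro q _
    rw [← Finset.mul_sum, hc q, mul_zero]
  have hval : ∑ r, (if N r then mu p t r * (a0 + ∑ q, a q * Yl p (t r) q) else 0)
      = P.eval (t r0) / ∏ r' ∈ Finset.univ.erase r0, (t r0 - t r') := by
    rw [Finset.sum_eq_single r0]
    · rw [if_pos h0, ha (t r0) (hl r0)]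
      unfold mu
      ring
    · intro r _ hr
      by_cases h : N r
      · rw [if_pos h]
        have hz : P.eval (t r) = 0 := by
          rw [hP, Polynomial.eval_prod]
          apply Finset.prod_eq_zero (i := r)
          · rw [hS, Finset.mem_erase, Finset.mem_filter]
            exact ⟨hr, Finset.mem_univ r, h⟩
          · simp
        rw [ha (t r) (hl r)] at hz
        rcases mul_eq_zero.1 hz with h' | h'
        · exact absurd h' (hl r)
        · rw [h', mul_zero]
      · rw [if_neg h]
    · intro h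
      exact absurd (Finset.mem_univ r0) h
  rw [hlin] at hval
  have hPne : P.eval (t r0) ≠ 0 := by
    rw [hP, Polynomial.eval_prod]
    apply Finset.prod_ne_zero_iff.2
    intro r hr
    rw [hS, Finset.mem_erase] at hr
    simp only [Polynomial.eval_sub, Polynomial.eval_X, Polynomial.eval_C]
    intro h
    exact hr.1 (ht (sub_eq_zero.1 h)).symm
  have hden : ∏ r' ∈ Finset.univ.erase r0, (t r0 - t r') ≠ 0 := by
    apply Finset.prod_ne_zero_iff.2
    intro r hr
    rw [Finset.mem_erase] at hr
    intro h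
    exact hr.1 (ht (sub_eq_zero.1 h)).symm
  exact (div_ne_zero hPne hden) hval.symm

theorem KAP (hPFR : PFR_stmt) : KAP_stmt := by
  intro p ι hfin s hs hl N hN κ₀ hκ
  classical
  -- the bad set
  set Q : (Fin (p + 2) → ι) → Polynomial ℝ := fun I =>
    KAP_Q p (∑ r, (if N (I r) then mu p (s ∘ I) r else 0))
      (fun q => ∑ r, (if N (I r) then mu p (s ∘ I) r * Yl p (s (I r)) q else 0)) with hQ
  set good : Set (Fin (p + 2) → ι) :=
    {I | Function.Injective I ∧ (∃ r, N (I r)) ∧ (∃ r, ¬ N (I r))} with hgood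
  have hQne : ∀ I ∈ good, Q I ≠ 0 := by
    rintro I ⟨hI, ⟨r0, h0⟩, ⟨r1, h1⟩⟩ hz
    obtain ⟨hc0, hc⟩ := KAP_Q_zero p _ _ hz
    exact KAP_ne hPFR p (s ∘ I) (hs.comp hI) (fun r => hl (I r)) (fun r => N (I r)) r0 r1 h0 h1
      hc0 hc
  have hbad : (⋃ I ∈ good, {z : ℝ | (Q I).IsRoot z}).Finite := by
    apply Set.Finite.biUnion (Set.toFinite good)
    intro I hI
    exact Polynomial.finite_setOfPred_isRoot (hQne I hI)
  have hpos : (0 : ℝ) < min κ₀ 1 := lt_min hκ one_pos
  obtain ⟨z, hz⟩ := ((Set.Ioo_infinite hpos).sdiff hbad).nonempty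
  have hz0 : 0 < z := hz.1.1
  have hz1 : z < κ₀ := lt_of_lt_of_le hz.1.2 (min_le_left _ _)
  have hz2 : z < 1 := lt_of_lt_of_le hz.1.2 (min_le_right _ _)
  refine ⟨fun q => z ^ ((q : ℕ) + 1), ?_, ?_⟩
  · intro q
    rw [abs_of_pos (by positivity)]
    calc z ^ ((q : ℕ) + 1) = z ^ (q : ℕ) * z := pow_succ _ _
      _ ≤ 1 * z := by
          apply mul_le_mul_of_nonneg_right _ hz0.le
          exact pow_le_one₀ hz0.le hz2.le
      _ = z := one_mul z
      _ < κ₀ := hz1
  · intro I hI h0 h1 hzero
    apply hz.2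
    rw [Set.mem_iUnion₂]
    refine ⟨I, ⟨hI, h0, h1⟩, ?_⟩
    show (Q I).eval z = 0
    rw [hQ]
    simp only
    rw [KAP_Q_eval]
    refine Eq.trans ?_ hzero
    simp only [Finset.sum_mul]
    rw [Finset.sum_comm, ← Finset.sum_add_distrib]
    apply Finset.sum_congr rfl
    intro r _
    by_cases h : N (I r)
    · simp only [h, if_true]
      rw [mul_add, mul_one, Finset.mul_sum]
      congr 1
      apply Finset.sum_congr rfl
      intro q _
      ring
    · simp [h]

end Pool.Agent.GF
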